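import Pool.Agent.H20.Zer2

namespace Pool.Agent.Results.MP_ad7422_al.Q2False

open Pool.Agent.H20.Zer

theorem result (N : ℕ) : ∃ (G : Type) (_ : Group G) (_ : Finite G), N < Nat.card G ∧
    (¬ ∀ x ∈ Fit G, ∀ y ∈ Fit G, x * y = y * x) ∧
    ∀ (V : Type) [AddCommGroup V] [Module ℂ V] [FiniteDimensional ℂ V] (ρ : Representation ℂ G V),
      ρ.IsIrreducible → z ρ ≤ 6 := main N

end Pool.Agent.Results.MP_ad7422_al.Q2False
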